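import Pool.Agent.U231.LT.Fin

/-!
# Algebraicity of Tate classes after reduction: products of an arbitrary variety with Fermat varieties

Let `k₀` be a number field (or a finitely generated field of characteristic `0`) with Galois group `Γ`,
and let `Z` be **any** smooth projective variety over `k₀`. Let `X_i` be products of diagonal
hypersurfaces (twisted Fermat varieties)

  `c_0 x_0 ^ N_i + ⋯ + c_{n+1} x_{n+1} ^ N_i = 0`, `c_j ∈ k₀ˣ`,

of the same prime degree `N_i`, which is unramified in `k₀`, and let the `N_i` be different. Let `s_i` be
the number of the coordinates used, so `s_i = n + 2` for one hypersurface of dimension `n`, and the sum
of the numbers `n + 2` of the factors in general. Let `B ≥ 1` be a bound for the dimension of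
`H(Z)`, or only for the dimensions of the parts of the Galois representation `H(Z)` which contain pure
classes (see below). Suppose for all `i` that `N_i > s_i B + 1`, or only that every odd divisor
`m ≤ s_i` of `N_i - 1` satisfies `m B < N_i - 1`. Let `X_L` be the product of some of the `X_i` (each
taken once).

Let `P` be a set of points `p` of good reduction of the `X_i` and `Z`, in the sense of the problem (for a
number field: of finite places of `k₀` which do not divide `ℓ`).

**Theorem.** (1) Every Tate class on `X_L × Z` is a sum of external products `a_1 × ⋯ × a_r × z` of
classes of algebraic cycles on the `X_i` and Tate classes `z` on `Z`.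

(2) For every Tate class `y` of codimension `r` on `X_L × Z` there are finitely many Tate classes
`z_1, …, z_n` of codimensions at most `r` on `Z` such that **for every point `p`, the reduction of `y` at `p`
is algebraic if and only if the reductions of `z_1, …, z_n` at `p` are algebraic.**

(3) Conversely, for every Tate class `z` on `Z` there is a Tate class `y` on `X_L × Z` such that for
every `p` the reduction of `y` is algebraic if and only if the reduction of `z` is.

(4) For every `p` and `r`: **the reductions at `p` of all Tate classes of codimension at most `r` on
`X_L × Z` are algebraic if and only if this holds for `Z`.**

(5) If there is a point `p` at which the reductions of all Tate classes on `Z` are algebraic, then the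
answer to Deligne's question is yes for `X_L × Z`; and if the answer is yes for `X_L × Z` then it is yes
for `Z`.

So Deligne's question for `X_L × Z` depends only on `Z`. Note that nothing is assumed about the Tate
conjecture for `X_L × Z` or for `Z`, over `k₀` or over the residue fields, and that the reductions of
`X_L × Z` have in general many more Tate classes than those which come from the reductions of `X_L` and
`Z`.

For example let `Z = S × S` for a K3 surface `S`. The Tate conjecture for `Z` is open if `S` has real
multiplication. But the Tate conjecture holds for the square of a K3 surface over a finite field of
characteristic at least `5` (Ito, Ito, Koshikawa), so all Tate classes on `Z` have algebraic reductions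
at all points of good reduction of characteristic at least `5`, and by the theorem the same is true
for `X_L × S × S` (with `B = 21 ^ 2`), for all products `X_L` as above.

**The formal setting.** `K` is an algebraically closed field which contains `ℂ_ℓ`, the cohomology has
coefficients in `K`, and `χ` is the inverse of the cyclotomic character (so `g c = χ(g) ^ j c` for `c` in
`H^(2j)` says that `c` is invariant in `H^(2j)(j)`). A `WeightData` is a character `χ` and an operator on
every finite-dimensional representation of `Γ`, compatible with the multilinear maps which are
equivariant under a subgroup of finite index (a derivation). The Sen operator of a place above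
`ℓ` is such an operator; it is normalized so that `χ` has the weight `1`. The cohomology of `X_L × Z` is the tensor product
of the cohomology of the factors (`space`, `degrees`). The set `red L p r` is the set of the classes of
algebraic cycles on the reduction of `X_L × Z` at `p`; the only properties which we use are those of
`IsReductions`: the external product with an algebraic class on `X_i` and the push-forward of the
product with an algebraic cycle on `X_i` preserve algebraic classes (the cycles on `X_i` specialize).
Nothing at all is assumed about the sets for `Z`.

Let `X` be a diagonal hypersurface of degree `N` and dimension `n`. Its cohomology is the direct sum of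
the lines spanned by the powers of the hyperplane class and of lines `V_a` in degree `n`, one for every
`a = (a_0, …, a_{n+1})`, where the `a_j` are residues modulo `N` different from `0` with the sum `0`: the
eigenspaces of the group `μ_N ^ (n+2)`. The Hodge type of `V_a` is `(p, q)` where `q` (or `p`, depending on
the conventions) is equal to `∑ ⟨a_j / N⟩ - 1 = n / 2 + ∑ saw (a_j) / (2 N)`, with `saw (b) = 2 b - N` for
`0 < b < N`. An element `g` of `Γ` maps `V_{c(g) a}` to `V_a`, where `c` is the cyclotomic character modulo
`N` or its inverse. If the multisets `a` and `-a` are equal, then `V_a` is spanned by the classes of linear
subspaces (Ran, Shioda). For the products of diagonal hypersurfaces of the degree `N` one takes the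
tensor products of these lines (and of the powers of the hyperplane classes, to which the empty
multiset belongs), and the multisets are added; if the multiset is symmetric, then the classes are
algebraic by Shioda's inductive structure. This is what is assumed in `IsFermatRep`. Different
prime numbers `N_i`, unramified in `k₀`, have independent characters `c_i`. The space of algebraic classes is the sum
of the `V_a` with symmetric `a`, which is dual to itself, so a combination of algebraic classes which is
orthogonal to all algebraic classes is zero (`IsDual`).

A class `x` in `H(Z)` is pure if `g x` is an eigenvector of the weight operator for all `g ∈ Γ`. For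
the Sen operator of a place of degree one this means, by the theorem of Sen, that the Lie algebra of the
normal subgroup generated by the inertia group of the place acts on `x` by a character. `HasPieces D B Z`
says that `H(Z)` is the direct sum of subspaces stable under `Γ`, each of which has dimension at most
`B` or contains no pure class except `0`.

**The proof.** Let `y` be a Tate class on `X_1 × ⋯ × X_r × Z`, and suppose that it has a component
different from `0` for the characters `a_i` of the `X_i`, and that `a = a_1` is not symmetric. The
contractions `v` of this component with linear forms are elements of `H(Z)`. The conjugates `Θ_t` of the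
weight operator by elements `t` of `Γ` act on them by known scalars: since `y` is a Tate class, the
scalar is equal to `j - ∑_i (d_i / 2 + S_i (t) / (2 N_i))`, where `S_i (t)` is the sum of `saw` over the
multiset `c_i (t) a_i`. So `v` is pure, and so are its projections to the pieces of `H(Z)`; one which is
not `0` is in a piece `U` of dimension at most `B`, and we replace `v` by it. Now choose elements `g`
of `Γ` with given `c_1 (g)` and with `c_i (g) = 1` for `i ≠ 1`. The conjugates `g⁻¹ v` are in `U`, and
belong to the characters `c_1 (g) a`; two of them have different eigenvalues for some `Θ_t`, unless they
have the same function `t ↦ S (t g a)`. So they are linearly independent, and the stabilizer `H` of the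
function `t ↦ S (t a)` in `(ℤ/N)ˣ` has index at most `dim U ≤ B`. The function is the convolution of `saw`
with the odd part of the multiplicity function of `a`. Since the generalized Bernoulli numbers of the
odd characters are different from `0`, the odd part is determined by the convolution, and so it is
invariant under `H`. It is not zero, since `a` is not symmetric. So `-1` is not in `H`, the order `m` of
`H` is an odd divisor of `N - 1`, and the support of `a` contains a coset of `H`, so `m ≤ s`. But
`m B ≥ N - 1`, a contradiction. So only symmetric, algebraic characters occur, and
`y = ∑ a_l × y_l` with linearly independent algebraic classes `a_l` on `X_1`, where `y_l` is the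
contraction of `y` with a combination of algebraic cycles on `X_1` (which is dual to `a_l`). So `y_l` is a Tate
class, and the reduction of `y` is algebraic if and only if the reductions of all `y_l` are. This gives
(1) and (2) by induction.

helper231. The definition of weight operators is from the starting files (`HodgeTateTowers`); the
nonvanishing of the Bernoulli numbers is from the starting file `Pool.Agent.H916R2.Indep` (Mathlib has
Dirichlet's theorem on `L(1, χ)`).
-/

set_option autoImplicit false

namespace Pool.Agent.Results.MP_b7cd1b_ag.FermatTimesArbitrary

open Pool.Agent.Y95.ZT.S Pool.Agent.U231.LP Pool.Agent.U231.HF Pool.Agent.U231.LT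

/-- **Deligne's question on the algebraicity of the reductions of Tate classes, for the products of an
arbitrary variety `Z` with varieties of Fermat type of different prime degrees.** -/
theorem result {K : Type} [Field K] [CharZero K] {Γ : Type} [Group Γ] (D : WeightData K Γ)
    (hD : IsNormalized D) {ι : Type} (N s : ι → ℕ) (X : ι → Coh K Γ)
    (fn : ∀ i, ℕ → Set ((X i).rep.V →ₗ[K] K)) (hX : IsFermatFamily D N s X fn) (Z : Coh K Γ)
    (B : ℕ) (hZ : HasPieces D B Z.rep) (hN : ∀ i, IsLarge (N i) (s i) B) {P : Type}
    (red : ∀ L : List ι, P → ℕ → Set (space X Z L).V) (hR : IsReductions X Z fn red)
    (L : List ι) (hL : L.Nodup) : DependsOnFactor X Z D.χ red L := by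
  have h1 := fun r y (hy : TateClass X Z D.χ L r y) => exists_test hD hX hZ hN hR L hL r y hy
  have h2 := fun r z (hz : TateClass X Z D.χ [] r z) => exists_pull hX hR L r z hz
  have h3 : ∀ r p, AllAlgebraicAt D.χ red L r p ↔ AllAlgebraicAt D.χ red [] r p := by
    intro r p
    constructor
    · intro h j hj z hz
      obtain ⟨y, hy, hyp⟩ := h2 j z hz
      exact (hyp p).1 (h j hj y hy)
    · intro h j hj y hy
      obtain ⟨T, -, hT, hTp⟩ := h1 j y hy
      exact (hTp p).2 fun t ht => h _ ((hT t ht).1.trans hj) _ (hT t ht).2
  refine ⟨fun r y hy => extSum hD hX hZ hN L hL r y hy, h1, h2, h3, ?_, ?_⟩
  · intro r p hp j hj y hy
    exact ⟨p, (h3 r p).2 hp j hj y hy⟩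
  · intro r h j hj z hz
    obtain ⟨y, hy, hyp⟩ := h2 j z hz
    obtain ⟨p, hp⟩ := h j hj y hy
    exact ⟨p, (hyp p).1 hp⟩

end Pool.Agent.Results.MP_b7cd1b_ag.FermatTimesArbitrary
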